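import Pool.Agent.Lib.MP_09eaec_ag.Mg.G011
import Pool.Agent.Lib.MP_09eaec_ag.Mg.G017

/-!
# The minimal degree for more than `(g - 1) n` sections
-/

set_option autoImplicit false

namespace Pool.Agent.MP_09eaec.GG.BG

open Module

universe u v

variable {k : Type u} {K : Type v} [Field k] [Field K] [Algebra k K]

theorem isLeast_all [IsAlgClosed k] [CharZero k] (hK : IsCurveField k K) {g : ℤ} (hg : 2 ≤ g)
    (hgen : IsGenus k K g) {n d : ℕ} (hn : 2 ≤ n) (hd : (g - 1) * n < d) (hd' : (d : ℤ) < g * n) :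
    IsLeast (stableDegrees k K n d) (d + (g - 3) * n + ⌈(d : ℚ) / ((g : ℚ) - 1)⌉) := by
  obtain ⟨c, hc⟩ : ∃ c : ℤ, c = ⌈(d : ℚ) / ((g : ℚ) - 1)⌉ := ⟨_, rfl⟩
  rw [← hc]
  by_cases hU : (1 + (c - n - 1) * ((g - 1) * c - d)) * ((g + 1) * n - d - c) < n
  · exact isLeast_mid hK hg hgen hn hd hd' hc hU
  obtain ⟨c1, c2⟩ := ceil_bounds hg d
  rw [← hc] at c1 c2
  have hg1 : (0 : ℤ) < g - 1 := by omega
  have hnz : (2 : ℤ) ≤ n := by exact_mod_cast hn
  have hnc : (n : ℤ) < c := by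
    by_contra hcon
    push Not at hcon
    nlinarith
  -- the excluded cases
  have h1 : ¬ (d : ℤ) ≤ (g - 1) * (n + 1) := fun h =>
    hU (cond_of hg hn hd hd' hc (Or.inr (Or.inl h)))
  have h2 : ¬ (g + 1) * n ≤ d + c := fun h =>
    hU (cond_of hg hn hd hd' hc (Or.inr (Or.inr (Or.inl h))))
  have h3 : ¬ g - 1 ∣ (d : ℤ) := fun h => hU (cond_of hg hn hd hd' hc (Or.inl h))
  have hc2 : (n : ℤ) + 2 ≤ c := by
    by_contra hcon
    have h4 : c = n + 1 := by omega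
    rw [h4] at c2
    exact h1 c2
  obtain ⟨m, hm⟩ : ∃ m : ℕ, c = n + m := ⟨(c - n).toNat, by omega⟩
  obtain ⟨a, ha⟩ : ∃ a : ℕ, (a : ℤ) = (g - 1) * c - d := ⟨((g - 1) * c - d).toNat, by omega⟩
  have ha1 : 1 ≤ a := by
    by_contra hcon
    have h4 : (g - 1) * c - d = 0 := by omega
    exact h3 ⟨c, by linarith⟩
  have ha2 : (a : ℤ) ≤ g - 2 := by
    have h4 : (g - 1) * (c - 1) = (g - 1) * c - (g - 1) := by ring
    rw [ha]
    omega
  refine ⟨?_, fun e he => by rw [hc]; exact lower_mid hK hg hgen hn hd hd' he⟩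
  obtain ⟨_, rfl⟩ := curveG_of_isGenus hK hg hgen
  obtain ⟨E, hE, hdeg, hh0⟩ := exists_bgn (k := k) (K := K) (m := m) (n := n) (a := a)
    (δ := (gen k K + 1) * n - d - c) (by omega) (by omega) ha1 ha2 (by omega) (by
      rw [ha, hm]; ring)
  have h5 := stable_mem (d := d) (by omega : 1 ≤ n) hE (by
    have h6 : (gen k K - 1) * ((n : ℤ) + m) - a = d := by rw [ha, hm]; ring
    rw [← h6]
    exact hh0)
  rw [hdeg] at h5
  have h6 : (n : ℤ) * (2 * gen k K - 2) - ((gen k K + 1) * n - d - c) =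
      d + (gen k K - 3) * n + c := by ring
  rw [h6] at h5
  exact h5

end Pool.Agent.MP_09eaec.GG.BG
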